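import Mathlib
import Pool.Agent.V11117.FRBal

/-!
MP_74778d_co, Q1: yes. There is a graph on 31962 vertices with balanced fractional revival between
two vertices that are not cospectral.
-/

namespace Pool.Agent.Results.MP_74778d_co.BalancedRevival

open Matrix Pool.Agent.V11117 Pool.Agent.V11117.FRDef Pool.Agent.V11117.FRBal

/-- Balanced fractional revival from `a` to `b` at time `t`. -/
def BalancedRevival {V : Type} [Fintype V] [DecidableEq V] (X : SimpleGraph V)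
    [DecidableRel X.Adj] (a b : V) (t : ℝ) : Prop :=
  ∃ α β : ℂ, ‖α‖ = 1 / Real.sqrt 2 ∧ ‖β‖ = 1 / Real.sqrt 2 ∧
    (walk X t).mulVec (Pi.single a 1) = α • Pi.single a 1 + β • Pi.single b 1

/-- The entry `(E_θ)_{a,b}`. -/
noncomputable def entry {V : Type} [Fintype V] [DecidableEq V] (X : SimpleGraph V)
    [DecidableRel X.Adj] (θ : ℝ) (a b : V) : ℝ :=
  proj X θ (EuclideanSpace.single b 1) a

/-- `a` and `b` are cospectral. -/
def Cospectral {V : Type} [Fintype V] [DecidableEq V] (X : SimpleGraph V)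
    [DecidableRel X.Adj] (a b : V) : Prop := ∀ θ : ℝ, entry X θ a a = entry X θ b b

/-! ### The walk -/

lemma sq2 : (Real.sqrt 2) ^ 2 = 2 := Real.sq_sqrt (by norm_num)

lemma s2_pos : 0 < Real.sqrt 2 := Real.sqrt_pos.2 (by norm_num)

/-- the time -/
noncomputable def τ : ℝ := Real.pi / (2 * Real.sqrt 2)

lemma τ_pos : 0 < τ := by
  unfold τ
  have := Real.pi_pos
  have := s2_pos
  positivity

lemma τ_mul : τ * Real.sqrt 2 = Real.pi / 2 := by
  unfold τ
  have := s2_pos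
  field_simp

lemma phase (s : ℝ) (hs : s = Real.sqrt 2 ∨ s = -Real.sqrt 2) (k : ℤ) :
    Complex.exp ((τ : ℂ) * Complex.I * ((4 * k * s : ℝ) : ℂ)) = 1 := by
  rw [Complex.exp_eq_one_iff]
  have h1 := τ_mul
  rcases hs with rfl | rfl
  · refine ⟨k, ?_⟩
    have : (τ : ℂ) * Complex.I * ((4 * k * Real.sqrt 2 : ℝ) : ℂ) =
        ((4 * k * (τ * Real.sqrt 2) : ℝ) : ℂ) * Complex.I := by push_cast; ring
    rw [this, h1]
    push_cast
    ring
  · refine ⟨-k, ?_⟩
    have : (τ : ℂ) * Complex.I * ((4 * k * -Real.sqrt 2 : ℝ) : ℂ) =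
        ((-(4 * k * (τ * Real.sqrt 2)) : ℝ) : ℂ) * Complex.I := by push_cast; ring
    rw [this, h1]
    push_cast
    ring

lemma W_eig {R : Type} [CommRing R] {v : Fin 6 → R} {θ : R}
    (h : (B.map (Int.castRingHom R)) *ᵥ v = θ • v) :
    X.adjMatrix R *ᵥ (v ∘ cell) = θ • (v ∘ cell) := by
  rw [mulVec_cell, h]
  rfl

lemma U_F (r : ℝ) (hr : r = Real.sqrt 2 ∨ r = -Real.sqrt 2) :
    walk X τ *ᵥ (F (r : ℂ) ∘ cell) =
      Complex.exp ((τ : ℂ) * Complex.I * ((40 + r : ℝ) : ℂ)) • (F (r : ℂ) ∘ cell) := by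
  have hr2 : r ^ 2 = 2 := by rcases hr with rfl | rfl <;> simp [sq2]
  have hr' : (r : ℂ) ^ 2 = 2 := by exact_mod_cast hr2
  have e1 := MExp.exp_mulVec (MExp.smul_mulVec_eig (W_eig (w1_eig (r : ℂ) hr'))
    ((τ : ℂ) * Complex.I))
  have e2 := MExp.exp_mulVec (MExp.smul_mulVec_eig (W_eig (w2_eig (r : ℂ) hr'))
    ((τ : ℂ) * Complex.I))
  have e3 := MExp.exp_mulVec (MExp.smul_mulVec_eig (W_eig (w3_eig (r : ℂ) hr'))
    ((τ : ℂ) * Complex.I))
  have c1 : Complex.exp ((τ : ℂ) * Complex.I * (40 + 101 * (r : ℂ))) =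
      Complex.exp ((τ : ℂ) * Complex.I * ((40 + r : ℝ) : ℂ)) := by
    have h := phase r hr 25
    have : (τ : ℂ) * Complex.I * (40 + 101 * (r : ℂ)) =
        (τ : ℂ) * Complex.I * ((40 + r : ℝ) : ℂ) +
        (τ : ℂ) * Complex.I * ((4 * (25 : ℤ) * r : ℝ) : ℂ) := by push_cast; ring
    rw [this, Complex.exp_add, h, mul_one]
  have c2 : Complex.exp ((τ : ℂ) * Complex.I * (40 + (r : ℂ))) =
      Complex.exp ((τ : ℂ) * Complex.I * ((40 + r : ℝ) : ℂ)) := by
    push_cast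
    rfl
  have c3 : Complex.exp ((τ : ℂ) * Complex.I * (40 - 95 * (r : ℂ))) =
      Complex.exp ((τ : ℂ) * Complex.I * ((40 + r : ℝ) : ℂ)) := by
    have h := phase r hr (-24)
    have : (τ : ℂ) * Complex.I * (40 - 95 * (r : ℂ)) =
        (τ : ℂ) * Complex.I * ((40 + r : ℝ) : ℂ) +
        (τ : ℂ) * Complex.I * ((4 * (-24 : ℤ) * r : ℝ) : ℂ) := by push_cast; ring
    rw [this, Complex.exp_add, h, mul_one]
  rw [c1] at e1
  rw [c2] at e2
  rw [c3] at e3
  have hF : F (r : ℂ) ∘ cell = (w1 (r : ℂ) ∘ cell) + (w2 (r : ℂ) ∘ cell) +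
      (w3 (r : ℂ) ∘ cell) := by
    rw [F_eq (r : ℂ)]
    rfl
  rw [walk, hF, Matrix.mulVec_add, Matrix.mulVec_add, e1, e2, e3, smul_add, smul_add]

lemma F_cell {R : Type} [Field R] (r : R) :
    F r ∘ cell = Pi.single va 1 + (r - 1) • Pi.single vb 1 := by
  funext x
  rcases x with s | ⟨c, i⟩
  · cases s <;> simp [cell, F, va, vb]
  · fin_cases c <;> simp [cell, F, va, vb]

/-- the common phase -/
noncomputable def E : ℂ := Complex.exp ((τ : ℂ) * Complex.I * ((40 + Real.sqrt 2 : ℝ) : ℂ))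

lemma E_neg : Complex.exp ((τ : ℂ) * Complex.I * ((40 + -Real.sqrt 2 : ℝ) : ℂ)) = -E := by
  have h : (τ : ℂ) * Complex.I * ((40 + -Real.sqrt 2 : ℝ) : ℂ) =
      (τ : ℂ) * Complex.I * ((40 + Real.sqrt 2 : ℝ) : ℂ) + (-(Real.pi * Complex.I)) := by
    have h1 : ((τ * Real.sqrt 2 : ℝ) : ℂ) = ((Real.pi / 2 : ℝ) : ℂ) := by rw [τ_mul]
    push_cast at h1 ⊢
    linear_combination (-2 * Complex.I) * h1
  rw [h, Complex.exp_add, Complex.exp_neg, Complex.exp_pi_mul_I, E]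
  norm_num

lemma norm_E : ‖E‖ = 1 := by
  have : (τ : ℂ) * Complex.I * ((40 + Real.sqrt 2 : ℝ) : ℂ) =
      ((τ * (40 + Real.sqrt 2) : ℝ) : ℂ) * Complex.I := by push_cast; ring
  rw [E, this, Complex.norm_exp_ofReal_mul_I]

lemma revival : walk X τ *ᵥ (Pi.single va 1) =
    (E / (Real.sqrt 2 : ℝ)) • Pi.single va 1 + (E / (Real.sqrt 2 : ℝ)) • Pi.single vb 1 := by
  have h2 : ((Real.sqrt 2 : ℝ) : ℂ) ≠ 0 := by exact_mod_cast s2_pos.ne'
  have h22 : ((Real.sqrt 2 : ℝ) : ℂ) ^ 2 = 2 := by exact_mod_cast sq2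
  set r : ℂ := ((Real.sqrt 2 : ℝ) : ℂ) with hr
  have hg := U_F (Real.sqrt 2) (Or.inl rfl)
  have hh := U_F (-Real.sqrt 2) (Or.inr rfl)
  rw [E_neg] at hh
  rw [F_cell] at hg hh
  have hm : ((-Real.sqrt 2 : ℝ) : ℂ) = -r := by rw [hr]; push_cast; rfl
  rw [hm] at hh
  rw [← hr] at hg
  have key : ∀ (x y : Vt → ℂ) (a b c d : ℂ), a • x + b • y + (c • x + d • y) =
        (a + c) • x + (b + d) • y := by
      intro x y a b c d
      rw [add_smul, add_smul]
      abel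
  have hs : (Pi.single va 1 : Vt → ℂ) = ((r + 1) / (2 * r)) •
      (Pi.single va 1 + (r - 1) • Pi.single vb 1) +
      ((r - 1) / (2 * r)) • (Pi.single va 1 + (-r - 1) • Pi.single vb 1) := by
    have e1 : (r + 1) / (2 * r) + (r - 1) / (2 * r) = 1 := by
      field_simp
      ring
    have e2 : (r + 1) / (2 * r) * (r - 1) + (r - 1) / (2 * r) * (-r - 1) = 0 := by
      field_simp
      ring
    rw [smul_add, smul_add, smul_smul, smul_smul, key, e1, e2, one_smul, zero_smul, add_zero]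
  conv_lhs => rw [hs]
  rw [Matrix.mulVec_add, Matrix.mulVec_smul, Matrix.mulVec_smul, hg, hh]
  change ((r + 1) / (2 * r)) • E • (Pi.single va 1 + (r - 1) • Pi.single vb 1) +
    ((r - 1) / (2 * r)) • (-E) • (Pi.single va 1 + (-r - 1) • Pi.single vb 1) = _
  simp only [smul_add, smul_smul]
  rw [key]
  congr 1
  · congr 1
    field_simp
    ring
  · congr 1
    field_simp
    linear_combination (2 * E) * h22

/-! ### The vertices are not cospectral -/

lemma single_a : (EuclideanSpace.single va 1 : EuclideanSpace ℝ Vt) =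
    ((Real.sqrt 2 + 1) / (2 * Real.sqrt 2)) • (WithLp.toLp 2 (w1 (Real.sqrt 2) ∘ cell) +
      WithLp.toLp 2 (w2 (Real.sqrt 2) ∘ cell) + WithLp.toLp 2 (w3 (Real.sqrt 2) ∘ cell)) +
    ((Real.sqrt 2 - 1) / (2 * Real.sqrt 2)) • (WithLp.toLp 2 (w1 (-Real.sqrt 2) ∘ cell) +
      WithLp.toLp 2 (w2 (-Real.sqrt 2) ∘ cell) + WithLp.toLp 2 (w3 (-Real.sqrt 2) ∘ cell)) := by
  have h5 := s2_pos.ne'
  have hF : ∀ r : ℝ, WithLp.toLp 2 (w1 r ∘ cell) + WithLp.toLp 2 (w2 r ∘ cell) +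
      WithLp.toLp 2 (w3 r ∘ cell) = (WithLp.toLp 2 (F r ∘ cell) : EuclideanSpace ℝ Vt) := by
    intro r
    rw [F_eq r]; rfl
  rw [hF, hF, F_cell, F_cell]
  ext x
  simp only [PiLp.add_apply, PiLp.smul_apply, Pi.add_apply, Pi.smul_apply, smul_eq_mul,
    EuclideanSpace.single_apply, Pi.single_apply]
  field_simp
  ring

lemma single_b : (EuclideanSpace.single vb 1 : EuclideanSpace ℝ Vt) =
    (1 / (2 * Real.sqrt 2)) • (WithLp.toLp 2 (w1 (Real.sqrt 2) ∘ cell) +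
      WithLp.toLp 2 (w2 (Real.sqrt 2) ∘ cell) + WithLp.toLp 2 (w3 (Real.sqrt 2) ∘ cell)) +
    (-1 / (2 * Real.sqrt 2)) • (WithLp.toLp 2 (w1 (-Real.sqrt 2) ∘ cell) +
      WithLp.toLp 2 (w2 (-Real.sqrt 2) ∘ cell) + WithLp.toLp 2 (w3 (-Real.sqrt 2) ∘ cell)) := by
  have h5 := s2_pos.ne'
  have hF : ∀ r : ℝ, WithLp.toLp 2 (w1 r ∘ cell) + WithLp.toLp 2 (w2 r ∘ cell) +
      WithLp.toLp 2 (w3 r ∘ cell) = (WithLp.toLp 2 (F r ∘ cell) : EuclideanSpace ℝ Vt) := by
    intro r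
    rw [F_eq r]; rfl
  rw [hF, hF, F_cell, F_cell]
  ext x
  simp only [PiLp.add_apply, PiLp.smul_apply, Pi.add_apply, Pi.smul_apply, smul_eq_mul,
    EuclideanSpace.single_apply, Pi.single_apply]
  field_simp
  ring

/-- the projection of a combination, for the eigenvalue `40 + 101 √2` -/
lemma proj_comb (a b : ℝ) : proj X (40 + 101 * Real.sqrt 2)
    (a • (WithLp.toLp 2 (w1 (Real.sqrt 2) ∘ cell) +
      WithLp.toLp 2 (w2 (Real.sqrt 2) ∘ cell) + WithLp.toLp 2 (w3 (Real.sqrt 2) ∘ cell)) +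
    b • (WithLp.toLp 2 (w1 (-Real.sqrt 2) ∘ cell) +
      WithLp.toLp 2 (w2 (-Real.sqrt 2) ∘ cell) + WithLp.toLp 2 (w3 (-Real.sqrt 2) ∘ cell))) =
    a • WithLp.toLp 2 (w1 (Real.sqrt 2) ∘ cell) := by
  have h2 := sq2
  have hm2 : (-Real.sqrt 2) ^ 2 = 2 := by rw [neg_sq, sq2]
  have hp := s2_pos
  simp only [map_add, map_smul]
  rw [proj_same (W_eig (w1_eig _ h2)), proj_diff (W_eig (w2_eig _ h2)) (by linarith),
    proj_diff (W_eig (w3_eig _ h2)) (by linarith),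
    proj_diff (W_eig (w1_eig _ hm2)) (by linarith),
    proj_diff (W_eig (w2_eig _ hm2)) (by linarith),
    proj_diff (W_eig (w3_eig _ hm2)) (by linarith)]
  simp

lemma not_cospectral : ¬ Cospectral X va vb := by
  intro h
  have h1 := h (40 + 101 * Real.sqrt 2)
  unfold entry at h1
  rw [single_a, single_b, proj_comb, proj_comb] at h1
  simp only [PiLp.smul_apply, smul_eq_mul, Function.comp_apply] at h1
  have ha : w1 (Real.sqrt 2) (cell va) = (9400 - 3760 * Real.sqrt 2) / 39200 := rfl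
  have hb : w1 (Real.sqrt 2) (cell vb) =
    (Real.sqrt 2 - 1) * ((9400 - 3760 * Real.sqrt 2) / 39200) := rfl
  rw [ha, hb] at h1
  have hp := s2_pos
  have hlt : Real.sqrt 2 < 1.5 := by
    rw [Real.sqrt_lt' (by norm_num)]; norm_num
  have hw : 0 < (9400 - 3760 * Real.sqrt 2) / 39200 := by linarith
  have h3 : (Real.sqrt 2 + 1) / (2 * Real.sqrt 2) = 1 / (2 * Real.sqrt 2) * (Real.sqrt 2 - 1) := by
    have h4 : ((Real.sqrt 2 + 1) / (2 * Real.sqrt 2)) * ((9400 - 3760 * Real.sqrt 2) / 39200) =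
        (1 / (2 * Real.sqrt 2) * (Real.sqrt 2 - 1)) * ((9400 - 3760 * Real.sqrt 2) / 39200) := by
      rw [h1]; ring
    exact mul_right_cancel₀ hw.ne' h4
  field_simp at h3
  linarith

/-- The answer to Q1 is yes: there is a graph with two distinct vertices that are not cospectral
and between which balanced fractional revival occurs. -/
theorem result : ∃ (V : Type) (_ : Fintype V) (_ : DecidableEq V) (X : SimpleGraph V)
    (_ : DecidableRel X.Adj) (a b : V), a ≠ b ∧ ¬ Cospectral X a b ∧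
      ∃ t : ℝ, 0 < t ∧ BalancedRevival X a b t := by
  refine ⟨Vt, inferInstance, inferInstance, FRBal.X, inferInstance, va, vb, by decide,
    not_cospectral, τ, τ_pos, E / (Real.sqrt 2 : ℝ), E / (Real.sqrt 2 : ℝ), ?_, ?_, revival⟩
  · rw [norm_div, norm_E, Complex.norm_real, Real.norm_of_nonneg s2_pos.le]
  · rw [norm_div, norm_E, Complex.norm_real, Real.norm_of_nonneg s2_pos.le]

end Pool.Agent.Results.MP_74778d_co.BalancedRevival
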